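import Pool.Agent.EGF.StmtsQ
import Pool.Agent.Helper44_EGF.Own

/-!
# Squad EGF (MP_1090a0_co), row OW2 (helper39)
-/

set_option autoImplicit false

open Finset

namespace Pool.Agent.EGF.H39

open Pool.Agent.EGF

/-- the popular classes contain three quarters of the vertices -/
theorem big_classes {V β : Type} [DecidableEq V] [DecidableEq β] (X : Finset V) (f : V → β)
    (Q : ℝ) (hQ : 0 < Q) (hf : ((X.image f).card : ℝ) ≤ Q) :
    (3 / 4 : ℝ) * X.card ≤ ∑ M ∈ (X.image f).filter (fun M =>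
      (X.card : ℝ) ≤ 4 * Q * ((X.filter (fun x => f x = M)).card : ℝ)),
        ((X.filter (fun x => f x = M)).card : ℝ) := by
  classical
  have h1 : (X.card : ℝ) = ∑ M ∈ X.image f, ((X.filter (fun x => f x = M)).card : ℝ) := by
    exact_mod_cast Finset.card_eq_sum_card_image f X
  have h4 := Finset.sum_filter_add_sum_filter_not (X.image f) (fun M =>
      (X.card : ℝ) ≤ 4 * Q * ((X.filter (fun x => f x = M)).card : ℝ))
      (fun M => ((X.filter (fun x => f x = M)).card : ℝ))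
  have h5 : ∑ M ∈ (X.image f).filter (fun M =>
      ¬ (X.card : ℝ) ≤ 4 * Q * ((X.filter (fun x => f x = M)).card : ℝ)),
        ((X.filter (fun x => f x = M)).card : ℝ) ≤ X.card / 4 := by
    calc ∑ M ∈ (X.image f).filter (fun M =>
          ¬ (X.card : ℝ) ≤ 4 * Q * ((X.filter (fun x => f x = M)).card : ℝ)),
            ((X.filter (fun x => f x = M)).card : ℝ)
        ≤ ∑ M ∈ (X.image f).filter (fun M =>
          ¬ (X.card : ℝ) ≤ 4 * Q * ((X.filter (fun x => f x = M)).card : ℝ)),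
            (X.card : ℝ) / (4 * Q) := by
          apply Finset.sum_le_sum
          intro M hM
          rw [Finset.mem_filter] at hM
          rw [le_div_iff₀ (by positivity)]
          have := not_le.mp hM.2
          linarith
      _ = (((X.image f).filter (fun M =>
          ¬ (X.card : ℝ) ≤ 4 * Q *
            ((X.filter (fun x => f x = M)).card : ℝ))).card : ℝ) *
              ((X.card : ℝ) / (4 * Q)) := by
          rw [Finset.sum_const, nsmul_eq_mul]
      _ ≤ Q * ((X.card : ℝ) / (4 * Q)) := by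
          apply mul_le_mul_of_nonneg_right _ (by positivity)
          refine le_trans ?_ hf
          exact_mod_cast Finset.card_filter_le _ _
      _ = X.card / 4 := by
          field_simp
  rw [← h1] at h4
  linarith

/-- the number of minor pairs -/
theorem minor (min' : MinStmt) {V : Type} [DecidableEq V] {k : ℕ} (c : V → V → Fin k)
    (U : Finset V) (s : ℕ) (L : ℝ) (hsym : ∀ x y, c x y = c y x) (hflat : Flat c U s (L * s))
    (hs : 2 ≤ s) :
    ((mins c U (1 / (s : ℝ) ^ 2)).card : ℝ) * s ≤ 8 * L * (U.card : ℝ) ^ 2 := by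
  have hsR : (2 : ℝ) ≤ s := by exact_mod_cast hs
  have hs0 : (0 : ℝ) < s := by linarith
  have hst : (s : ℝ) ^ 2 * (1 / (s : ℝ) ^ 2) = 1 := by field_simp
  have hmin := min' V k c U s (L * s) (1 / (s : ℝ) ^ 2) hsym hflat hs (by positivity) hst.le
  have h1 : (s : ℝ) * (((mins c U (1 / (s : ℝ) ^ 2)).card : ℝ) * (s - 1)) ≤
      s * (4 * L * (U.card : ℝ) ^ 2) := by
    calc (s : ℝ) * (((mins c U (1 / (s : ℝ) ^ 2)).card : ℝ) * (s - 1))
        = ((mins c U (1 / (s : ℝ) ^ 2)).card : ℝ) * (s * (s - 1)) := by ring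
      _ ≤ 4 * (L * s) * (U.card : ℝ) ^ 2 := hmin
      _ = _ := by ring
  have h2 := le_of_mul_le_mul_left h1 hs0
  have h3 : ((mins c U (1 / (s : ℝ) ^ 2)).card : ℝ) * s ≤
      2 * (((mins c U (1 / (s : ℝ) ^ 2)).card : ℝ) * (s - 1)) := by
    have h4 : (0 : ℝ) ≤ ((mins c U (1 / (s : ℝ) ^ 2)).card : ℝ) := Nat.cast_nonneg _
    nlinarith
  linarith

/-- the major colours -/
theorem major {V : Type} [DecidableEq V] {k : ℕ} (c : V → V → Fin k) (U : Finset V) (s : ℕ)
    (hs : 2 ≤ s) (hU : 0 < U.card) :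
    ∃ F : V → Finset (Fin k), (∀ x a, a ∈ F x ↔
      1 / (s : ℝ) ^ 2 * U.card ≤ ((nb c U a x).card : ℝ)) ∧ ∀ x, (F x).card ≤ s ^ 2 := by
  classical
  have hsR : (2 : ℝ) ≤ s := by exact_mod_cast hs
  have hs0 : (0 : ℝ) < s := by linarith
  have hN0 : (0 : ℝ) < U.card := by exact_mod_cast hU
  obtain ⟨t, ht⟩ : ∃ t : ℝ, t = 1 / (s : ℝ) ^ 2 := ⟨_, rfl⟩
  have ht0 : 0 < t := by rw [ht]; positivity
  have hst : (s : ℝ) ^ 2 * t = 1 := by
    rw [ht]
    field_simp
  rw [← ht]
  obtain ⟨F, hF⟩ : ∃ F : V → Finset (Fin k), ∀ x a, a ∈ F x ↔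
      t * U.card ≤ ((nb c U a x).card : ℝ) :=
    ⟨fun x => Finset.univ.filter (fun a => t * U.card ≤ ((nb c U a x).card : ℝ)), fun x a => by
      rw [Finset.mem_filter]
      exact ⟨fun h => h.2, fun h => ⟨Finset.mem_univ _, h⟩⟩⟩
  refine ⟨F, hF, ?_⟩
  intro x
  have h1 : ∑ a, (nb c U a x).card ≤ U.card := by
    have h2 := Finset.card_eq_sum_card_fiberwise (s := U.filter (fun y => y ≠ x))
      (t := (Finset.univ : Finset (Fin k))) (f := fun y => c x y)
      (fun y _ => Finset.mem_coe.mpr (Finset.mem_univ _))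
    have h3 : ∀ a : Fin k, (nb c U a x).card
        = ((U.filter (fun y => y ≠ x)).filter (fun y => c x y = a)).card := by
      intro a
      unfold nb
      rw [Finset.filter_filter]
    rw [Finset.sum_congr rfl fun a _ => h3 a, ← h2]
    exact Finset.card_filter_le _ _
  have h4 : ((F x).card : ℝ) * (t * U.card) ≤ U.card := by
    calc ((F x).card : ℝ) * (t * U.card) = ∑ _a ∈ F x, t * (U.card : ℝ) := by
          rw [Finset.sum_const, nsmul_eq_mul]
      _ ≤ ∑ a ∈ F x, ((nb c U a x).card : ℝ) :=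
          Finset.sum_le_sum fun a ha => (hF x a).mp ha
      _ ≤ ∑ a, ((nb c U a x).card : ℝ) :=
          Finset.sum_le_sum_of_subset_of_nonneg (Finset.subset_univ _)
            (fun _ _ _ => Nat.cast_nonneg _)
      _ ≤ U.card := by exact_mod_cast h1
  have h5 : ((F x).card : ℝ) * t ≤ 1 := by
    have h6 : (U.card : ℝ) * (((F x).card : ℝ) * t) ≤ U.card * 1 := by linarith
    exact le_of_mul_le_mul_left h6 hN0
  have h7 : ((F x).card : ℝ) ≤ (s : ℝ) ^ 2 := by
    have h8 : ((F x).card : ℝ) = (s : ℝ) ^ 2 * (((F x).card : ℝ) * t) := by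
      calc ((F x).card : ℝ) = ((F x).card : ℝ) * ((s : ℝ) ^ 2 * t) := by rw [hst, mul_one]
        _ = _ := by ring
    rw [h8]
    calc (s : ℝ) ^ 2 * (((F x).card : ℝ) * t) ≤ (s : ℝ) ^ 2 * 1 :=
          mul_le_mul_of_nonneg_left h5 (by positivity)
      _ = _ := mul_one _
  exact_mod_cast h7

/-- the exceptional pairs of the classes are minor pairs -/
theorem exsum {V β : Type} [DecidableEq V] [DecidableEq β] [Fintype β] {k : ℕ}
    (c : V → V → Fin k) (U U1 U2 : Finset V) (t : ℝ) (F : V → Finset (Fin k)) (f : V → β)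
    (φ : β → Finset (Fin k)) (hφ : ∀ x, φ (f x) = F x)
    (hF : ∀ x a, a ∈ F x ↔ t * U.card ≤ ((nb c U a x).card : ℝ))
    (hU1 : U1 ⊆ U) (hU2 : U2 ⊆ U) (hdis : Disjoint U1 U2) (B1 B2 : Finset β) :
    (∑ P ∈ B1 ×ˢ B2, ((ex c (φ P.1 ∪ φ P.2) (U1.filter (fun x => f x = P.1))
        (U2.filter (fun x => f x = P.2))).card : ℝ)) ≤ (mins c U t).card := by
  classical
  obtain ⟨E, hE⟩ : ∃ E : Finset (V × V), ∀ p, p ∈ E ↔
      p.1 ∈ U1 ∧ p.2 ∈ U2 ∧ c p.1 p.2 ∉ F p.1 ∧ c p.1 p.2 ∉ F p.2 :=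
    ⟨(U1 ×ˢ U2).filter (fun p => c p.1 p.2 ∉ F p.1 ∧ c p.1 p.2 ∉ F p.2), fun p => by
      rw [Finset.mem_filter, Finset.mem_product]
      tauto⟩
  have hEm : E ⊆ mins c U t := by
    intro p hp
    rw [hE] at hp
    obtain ⟨h1, h2, h3, h4⟩ := hp
    unfold mins
    rw [Finset.mem_filter, Finset.mem_product]
    refine ⟨⟨hU1 h1, hU2 h2⟩, ?_, ?_, ?_⟩
    · intro h5
      exact (Finset.disjoint_left.mp hdis) h1 (h5 ▸ h2)
    · rw [hF] at h3
      exact not_le.mp h3
    · rw [hF] at h4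
      exact not_le.mp h4
  have h1 : ∀ P : β × β,
      ex c (φ P.1 ∪ φ P.2) (U1.filter (fun x => f x = P.1)) (U2.filter (fun x => f x = P.2))
        = E.filter (fun p => (f p.1, f p.2) = P) := by
    intro P
    ext p
    unfold ex
    rw [Finset.mem_filter, Finset.mem_product, Finset.mem_filter, Finset.mem_filter,
      Finset.mem_filter, hE, Finset.mem_union, Prod.ext_iff]
    constructor
    · rintro ⟨⟨⟨h2, h3⟩, h4, h5⟩, h6⟩
      rw [← h3, ← h5, hφ, hφ] at h6
      exact ⟨⟨h2, h4, fun h => h6 (Or.inl h), fun h => h6 (Or.inr h)⟩, h3, h5⟩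
    · rintro ⟨⟨h2, h4, h7, h8⟩, h3, h5⟩
      simp only at h3 h5
      refine ⟨⟨⟨h2, h3⟩, h4, h5⟩, ?_⟩
      rw [← h3, ← h5, hφ, hφ]
      rintro (h | h)
      · exact h7 h
      · exact h8 h
  have h2 : (∑ P ∈ B1 ×ˢ B2, (E.filter (fun p => (f p.1, f p.2) = P)).card) ≤ E.card := by
    calc (∑ P ∈ B1 ×ˢ B2, (E.filter (fun p => (f p.1, f p.2) = P)).card)
        ≤ ∑ P ∈ (Finset.univ : Finset (β × β)),
          (E.filter (fun p => (f p.1, f p.2) = P)).card :=
          Finset.sum_le_sum_of_subset (Finset.subset_univ _)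
      _ = E.card := (Finset.card_eq_sum_card_fiberwise
          (fun p _ => Finset.mem_coe.mpr (Finset.mem_univ _))).symm
  rw [Finset.sum_congr rfl fun P _ => by rw [h1 P]]
  exact_mod_cast h2.trans (Finset.card_le_card hEm)

theorem ow2 (min' : MinStmt) : Ow2Stmt := by
  classical
  intro V _ k c U s0 s1 L hsym hflat0 hflat1 hL hs0 hs1 hU
  have hN16 : (16 : ℝ) ≤ U.card := by exact_mod_cast hU
  have hN0 : (0 : ℝ) < U.card := by linarith
  have hs0R : (0 : ℝ) < s0 := by
    have : (2 : ℝ) ≤ s0 := by exact_mod_cast hs0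
    linarith
  have hs1R : (0 : ℝ) < s1 := by
    have : (2 : ℝ) ≤ s1 := by exact_mod_cast hs1
    linarith
  have hm0 := minor min' c U s0 L hsym hflat0 hs0
  have hm1 := minor min' c U s1 L hsym hflat1 hs1
  obtain ⟨F0, hF0, hF0c⟩ := major c U s0 hs0 (by omega)
  obtain ⟨F1, hF1, hF1c⟩ := major c U s1 hs1 (by omega)
  -- the halves
  obtain ⟨U1, hU1, hU1c⟩ := Finset.exists_subset_card_eq (Nat.div_le_self U.card 2)
  have hU1R : (U.card : ℝ) - 1 ≤ 2 * U1.card := by
    rw [hU1c]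
    have : U.card ≤ 2 * (U.card / 2) + 1 := by omega
    have h2 : (U.card : ℝ) ≤ 2 * ((U.card / 2 : ℕ) : ℝ) + 1 := by exact_mod_cast this
    linarith
  obtain ⟨U2, hU2def⟩ : ∃ U2 : Finset V, U2 = U \ U1 := ⟨_, rfl⟩
  have hU2 : U2 ⊆ U := by rw [hU2def]; exact Finset.sdiff_subset
  have hdis : Disjoint U1 U2 := by rw [hU2def]; exact Finset.disjoint_sdiff
  have hU2R : (U.card : ℝ) ≤ 2 * U2.card := by
    have h1 : U2.card = U.card - U1.card := by rw [hU2def, Finset.card_sdiff_of_subset hU1]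
    have h2 : U.card ≤ 2 * U2.card := by rw [h1, hU1c]; omega
    exact_mod_cast h2
  -- the classes
  obtain ⟨f, hf⟩ : ∃ f : V → Finset (Fin k) × Finset (Fin k), ∀ x, f x = (F0 x, F1 x) :=
    ⟨fun x => (F0 x, F1 x), fun _ => rfl⟩
  obtain ⟨Q, hQdef⟩ : ∃ Q : ℝ, Q = ((k : ℝ) + 1) ^ (s0 ^ 2 + s1 ^ 2) := ⟨_, rfl⟩
  have hQ : 0 < Q := by rw [hQdef]; positivity
  have himg : ∀ X : Finset V, ((X.image f).card : ℝ) ≤ Q := by
    intro X
    have h3 : X.image f ⊆
        ((Finset.univ : Finset (Finset (Fin k))).filter (fun M => M.card ≤ s0 ^ 2)) ×ˢ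
        ((Finset.univ : Finset (Finset (Fin k))).filter (fun M => M.card ≤ s1 ^ 2)) := by
      intro M hM
      obtain ⟨x, _, rfl⟩ := Finset.mem_image.mp hM
      rw [hf, Finset.mem_product]
      exact ⟨Finset.mem_filter.mpr ⟨Finset.mem_univ _, hF0c x⟩,
        Finset.mem_filter.mpr ⟨Finset.mem_univ _, hF1c x⟩⟩
    have h4 := Finset.card_le_card h3
    rw [Finset.card_product] at h4
    have h5 := h4.trans (Nat.mul_le_mul (H44.card_small k (s0 ^ 2)) (H44.card_small k (s1 ^ 2)))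
    rw [← pow_add] at h5
    rw [hQdef]
    exact_mod_cast h5
  have hb1 := big_classes U1 f Q hQ (himg U1)
  have hb2 := big_classes U2 f Q hQ (himg U2)
  obtain ⟨B1, hB1⟩ : ∃ B1 : Finset (Finset (Fin k) × Finset (Fin k)),
      B1 = (U1.image f).filter (fun M =>
      (U1.card : ℝ) ≤ 4 * Q * ((U1.filter (fun x => f x = M)).card : ℝ)) := ⟨_, rfl⟩
  obtain ⟨B2, hB2⟩ : ∃ B2 : Finset (Finset (Fin k) × Finset (Fin k)),
      B2 = (U2.image f).filter (fun M =>
      (U2.card : ℝ) ≤ 4 * Q * ((U2.filter (fun x => f x = M)).card : ℝ)) := ⟨_, rfl⟩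
  rw [← hB1] at hb1
  rw [← hB2] at hb2
  have hE0 := exsum c U U1 U2 (1 / (s0 : ℝ) ^ 2) F0 f Prod.fst (fun x => by rw [hf]) hF0
    hU1 hU2 hdis B1 B2
  have hE1 := exsum c U U1 U2 (1 / (s1 : ℝ) ^ 2) F1 f Prod.snd (fun x => by rw [hf]) hF1
    hU1 hU2 hdis B1 B2
  -- a good pair
  obtain ⟨M, hM, M', hM', hgood0, hgood1⟩ : ∃ M ∈ B1, ∃ M' ∈ B2,
      ((ex c (M.1 ∪ M'.1) (U1.filter (fun x => f x = M)) (U2.filter (fun x => f x = M'))).card
          : ℝ) ≤ 320 * L / s0 * ((U1.filter (fun x => f x = M)).card *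
            (U2.filter (fun x => f x = M')).card) ∧
      ((ex c (M.2 ∪ M'.2) (U1.filter (fun x => f x = M)) (U2.filter (fun x => f x = M'))).card
          : ℝ) ≤ 320 * L / s1 * ((U1.filter (fun x => f x = M)).card *
            (U2.filter (fun x => f x = M')).card) := by
    by_contra hcon
    push Not at hcon
    have hlow : 320 * L * ((∑ M ∈ B1, ((U1.filter (fun x => f x = M)).card : ℝ)) *
        ∑ M' ∈ B2, ((U2.filter (fun x => f x = M')).card : ℝ)) ≤
        (∑ P ∈ B1 ×ˢ B2, ((ex c (P.1.1 ∪ P.2.1) (U1.filter (fun x => f x = P.1))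
          (U2.filter (fun x => f x = P.2))).card : ℝ)) * s0 +
        (∑ P ∈ B1 ×ˢ B2, ((ex c (P.1.2 ∪ P.2.2) (U1.filter (fun x => f x = P.1))
          (U2.filter (fun x => f x = P.2))).card : ℝ)) * s1 := by
      refine le_trans (b := ∑ P ∈ B1 ×ˢ B2,
        (((ex c (P.1.1 ∪ P.2.1) (U1.filter (fun x => f x = P.1))
          (U2.filter (fun x => f x = P.2))).card : ℝ) * s0 +
        ((ex c (P.1.2 ∪ P.2.2) (U1.filter (fun x => f x = P.1))
          (U2.filter (fun x => f x = P.2))).card : ℝ) * s1)) ?_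
        (by rw [Finset.sum_add_distrib, ← Finset.sum_mul, ← Finset.sum_mul])
      rw [Finset.sum_product, Finset.sum_mul_sum, Finset.mul_sum]
      apply Finset.sum_le_sum
      intro M hM
      rw [Finset.mul_sum]
      apply Finset.sum_le_sum
      intro M' hM'
      have h0 : (0 : ℝ) ≤ ((ex c (M.1 ∪ M'.1) (U1.filter (fun x => f x = M))
        (U2.filter (fun x => f x = M'))).card : ℝ) * s0 := by positivity
      have h1 : (0 : ℝ) ≤ ((ex c (M.2 ∪ M'.2) (U1.filter (fun x => f x = M))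
        (U2.filter (fun x => f x = M'))).card : ℝ) * s1 := by positivity
      rcases le_or_gt ((ex c (M.1 ∪ M'.1) (U1.filter (fun x => f x = M))
          (U2.filter (fun x => f x = M'))).card : ℝ)
          (320 * L / s0 * ((U1.filter (fun x => f x = M)).card *
            (U2.filter (fun x => f x = M')).card)) with h | h
      · have h2 := hcon M hM M' hM' h
        have h3 := mul_lt_mul_of_pos_right h2 hs1R
        have h4 : 320 * L / s1 * (((U1.filter (fun x => f x = M)).card : ℝ) *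
            ((U2.filter (fun x => f x = M')).card : ℝ)) * s1 =
            320 * L * (((U1.filter (fun x => f x = M)).card : ℝ) *
            ((U2.filter (fun x => f x = M')).card : ℝ)) := by
          field_simp
        rw [h4] at h3
        simp only
        linarith
      · have h3 := mul_lt_mul_of_pos_right h hs0R
        have h4 : 320 * L / s0 * (((U1.filter (fun x => f x = M)).card : ℝ) *
            ((U2.filter (fun x => f x = M')).card : ℝ)) * s0 =
            320 * L * (((U1.filter (fun x => f x = M)).card : ℝ) *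
            ((U2.filter (fun x => f x = M')).card : ℝ)) := by
          field_simp
        rw [h4] at h3
        simp only
        linarith
    have hprod : (3 / 4 : ℝ) * U1.card * ((3 / 4 : ℝ) * U2.card) ≤
        (∑ M ∈ B1, ((U1.filter (fun x => f x = M)).card : ℝ)) *
          ∑ M' ∈ B2, ((U2.filter (fun x => f x = M')).card : ℝ) :=
      mul_le_mul hb1 hb2 (by positivity) (Finset.sum_nonneg fun _ _ => Nat.cast_nonneg _)
    have hUU : (15 / 64 : ℝ) * (U.card : ℝ) ^ 2 ≤ U1.card * U2.card := by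
      have h1 : (15 / 32 : ℝ) * U.card ≤ U1.card := by linarith
      have h2 : (1 / 2 : ℝ) * U.card ≤ U2.card := by linarith
      have h3 := mul_le_mul h1 h2 (by positivity) (Nat.cast_nonneg _)
      nlinarith
    have hE0' := mul_le_mul_of_nonneg_right hE0 hs0R.le
    have hE1' := mul_le_mul_of_nonneg_right hE1 hs1R.le
    have h6 := mul_le_mul_of_nonneg_left hprod (show (0 : ℝ) ≤ 320 * L by positivity)
    have h7 : 320 * L * ((3 / 4 : ℝ) * U1.card * ((3 / 4 : ℝ) * U2.card))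
        ≤ 16 * L * (U.card : ℝ) ^ 2 := by linarith
    have h9 : 320 * L * ((9 / 16 : ℝ) * ((15 / 64 : ℝ) * (U.card : ℝ) ^ 2))
        ≤ 320 * L * ((9 / 16 : ℝ) * (U1.card * U2.card)) := by
      apply mul_le_mul_of_nonneg_left _ (by positivity)
      linarith
    have h10 : 0 < L * (U.card : ℝ) ^ 2 := by positivity
    nlinarith
  -- conclusion
  rw [hB1, Finset.mem_filter] at hM
  rw [hB2, Finset.mem_filter] at hM'
  obtain ⟨x, -, hx⟩ := Finset.mem_image.mp hM.1
  obtain ⟨x', -, hx'⟩ := Finset.mem_image.mp hM'.1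
  refine ⟨U1.filter (fun x => f x = M), U2.filter (fun x => f x = M'), M.1 ∪ M'.1, M.2 ∪ M'.2,
    (Finset.filter_subset _ _).trans hU1, (Finset.filter_subset _ _).trans hU2, ?_, ?_, ?_, ?_,
    ?_, hgood0, hgood1⟩
  · exact Finset.disjoint_of_subset_left (Finset.filter_subset _ _)
      (Finset.disjoint_of_subset_right (Finset.filter_subset _ _) hdis)
  · have h1 : M.1.card ≤ s0 ^ 2 := by rw [← hx, hf]; exact hF0c x
    have h2 : M'.1.card ≤ s0 ^ 2 := by rw [← hx', hf]; exact hF0c x'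
    have h3 := Finset.card_union_le M.1 M'.1
    omega
  · have h1 : M.2.card ≤ s1 ^ 2 := by rw [← hx, hf]; exact hF1c x
    have h2 : M'.2.card ≤ s1 ^ 2 := by rw [← hx', hf]; exact hF1c x'
    have h3 := Finset.card_union_le M.2 M'.2
    omega
  · have h1 := hM.2
    rw [← hQdef]
    calc (U.card : ℝ) ≤ 4 * U1.card := by linarith
      _ ≤ 4 * (4 * Q * ((U1.filter (fun x => f x = M)).card : ℝ)) := by
          linarith
      _ = _ := by ring
  · have h1 := hM'.2
    rw [← hQdef]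
    calc (U.card : ℝ) ≤ 4 * U2.card := by linarith
      _ ≤ 4 * (4 * Q * ((U2.filter (fun x => f x = M')).card : ℝ)) := by
          linarith
      _ = _ := by ring

end Pool.Agent.EGF.H39
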